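import Pool.Agent.Helper79.CF.Spec

/-!
# CF, ENM: a computable enumeration of the integer polynomials
-/

set_option autoImplicit false

namespace Pool.Agent.Helper27.CF.ENM
open Finset Filter Topology Polynomial
open Pool.Agent.Helper79.CF (S_ENM)

/-- Horner's rule -/
def hor (l : List ℕ) (n : ℕ) : ℕ := l.foldr (fun c acc => c + n * acc) 0

lemma hor_prim : Primrec₂ hor := by
  unfold Primrec₂ hor
  have h : Primrec₂ (fun (a : List ℕ × ℕ) (q : ℕ × ℕ) => q.1 + a.2 * q.2) :=
    Primrec.nat_add.comp (Primrec.fst.comp Primrec.snd)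
      (Primrec.nat_mul.comp (Primrec.snd.comp Primrec.fst) (Primrec.snd.comp Primrec.snd))
  exact Primrec.list_foldr Primrec.fst (Primrec.const 0) h

/-- the enumeration -/
def pe (i n : ℕ) : ℕ :=
  hor ((Encodable.decode (α := List ℕ × List ℕ) i).getD ([], [])).1 n
    - hor ((Encodable.decode (α := List ℕ × List ℕ) i).getD ([], [])).2 n

lemma pe_prim : Primrec₂ pe := by
  unfold Primrec₂ pe
  have hd : Primrec (fun a : ℕ × ℕ => (Encodable.decode (α := List ℕ × List ℕ) a.1).getD ([], [])) :=
    Primrec.option_getD.comp (Primrec.decode.comp Primrec.fst) (Primrec.const ([], []))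
  exact Primrec.nat_sub.comp (hor_prim.comp (Primrec.fst.comp hd) Primrec.snd)
    (hor_prim.comp (Primrec.snd.comp hd) Primrec.snd)

lemma hor_range (m : ℕ) : ∀ (c : ℕ → ℕ) (n : ℕ),
    hor ((List.range m).map c) n = ∑ k ∈ range m, c k * n ^ k := by
  induction m with
  | zero => intro c n; simp [hor]
  | succ m ih =>
    intro c n
    rw [List.range_succ_eq_map, List.map_cons, List.map_map, Finset.sum_range_succ']
    have h := ih (c ∘ Nat.succ) n
    unfold hor at h ⊢
    rw [List.foldr_cons, h, Finset.mul_sum, pow_zero, mul_one, add_comm]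
    congr 1
    apply Finset.sum_congr rfl
    intro k _
    simp only [Function.comp]
    ring

lemma ev_nonneg (Q : ℤ[X]) (h1 : 1 ≤ Q.natDegree) (h2 : 0 < Q.leadingCoeff) :
    ∀ᶠ n : ℕ in atTop, 0 ≤ Q.eval (n : ℤ) := by
  have hinj : Function.Injective (Int.castRingHom ℝ) := Int.cast_injective
  have hd : 0 < (Q.map (Int.castRingHom ℝ)).degree := by
    rw [Polynomial.degree_map_eq_of_injective hinj]
    exact Polynomial.natDegree_pos_iff_degree_pos.1 h1
  have hl : 0 ≤ (Q.map (Int.castRingHom ℝ)).leadingCoeff := by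
    rw [Polynomial.leadingCoeff_map_of_injective hinj, eq_intCast]
    exact_mod_cast h2.le
  have ht := (Polynomial.tendsto_atTop_of_leadingCoeff_nonneg _ hd hl).comp
    (tendsto_natCast_atTop_atTop (R := ℝ))
  filter_upwards [ht.eventually_ge_atTop 0] with n hn
  simp only [Function.comp] at hn
  have e : Polynomial.eval (n : ℝ) (Q.map (Int.castRingHom ℝ)) = ((Q.eval (n : ℤ) : ℤ) : ℝ) := by
    have := Polynomial.eval_intCast_map (Int.castRingHom ℝ) Q (n : ℤ)
    simp at this
    simp [this]
  rw [e] at hn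
  exact_mod_cast hn

theorem main : S_ENM := by
  refine ⟨pe, pe_prim.to_comp, ?_⟩
  intro Q h1 h2
  set m := Q.natDegree + 1 with hm
  set l1 := (List.range m).map (fun k => (Q.coeff k).toNat) with hl1
  set l2 := (List.range m).map (fun k => (-(Q.coeff k)).toNat) with hl2
  refine ⟨Encodable.encode (l1, l2), ?_⟩
  filter_upwards [ev_nonneg Q h1 h2] with n hn
  have e : pe (Encodable.encode (l1, l2)) n = hor l1 n - hor l2 n := by
    unfold pe
    rw [Encodable.encodek]
    rfl
  have e2 : ((hor l1 n : ℕ) : ℤ) - (hor l2 n : ℕ) = Q.eval (n : ℤ) := by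
    rw [hl1, hl2, hor_range, hor_range, Polynomial.eval_eq_sum_range]
    push_cast
    rw [← Finset.sum_sub_distrib]
    apply Finset.sum_congr rfl
    intro k _
    rw [← sub_mul]
    congr 1
    have := Int.toNat_sub_toNat_neg (Q.coeff k)
    exact this
  rw [e]
  omega

end Pool.Agent.Helper27.CF.ENM
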