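import Pool.Agent.Helper79.CF.Spec

/-!
# CF, GRW: growth of the terms
-/

set_option autoImplicit false

namespace Pool.Agent.Helper27.CF.GRW
open Finset Filter Topology
open Pool.Agent.Helper79.CF (IsPol S_GRW)
open Pool.Agent.Q138.GS (th)

lemma th_norm (m : ℕ) : ‖th m‖ ≤ Real.log (m + 2) := by
  unfold th
  split_ifs with h
  · rw [Complex.norm_real, Real.norm_eq_abs, abs_of_nonneg (Real.log_natCast_nonneg m)]
    apply Real.log_le_log
    · exact_mod_cast h.pos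
    · linarith
  · rw [norm_zero]
    apply Real.log_nonneg
    have : (0 : ℝ) ≤ m := Nat.cast_nonneg m
    linarith

lemma growth (P : ℕ → ℕ) (Q : Polynomial ℝ) (h : IsPol P Q) : ∃ A : ℝ, 1 ≤ A ∧
    ∀ n : ℕ, (P n : ℝ) ≤ A * ((n : ℝ) + 2) ^ Q.natDegree := by
  obtain ⟨-, -, h3⟩ := h
  obtain ⟨n0, hn0⟩ := eventually_atTop.1 h3
  refine ⟨(∑ k ∈ range (Q.natDegree + 1), |Q.coeff k|) + (∑ n ∈ range n0, (P n : ℝ)) + 1, ?_, ?_⟩
  · have h1 : 0 ≤ ∑ k ∈ range (Q.natDegree + 1), |Q.coeff k| := sum_nonneg fun _ _ => abs_nonneg _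
    have h2 : 0 ≤ ∑ n ∈ range n0, (P n : ℝ) := sum_nonneg fun _ _ => Nat.cast_nonneg _
    linarith
  · intro n
    have h1 : 0 ≤ ∑ k ∈ range (Q.natDegree + 1), |Q.coeff k| := sum_nonneg fun _ _ => abs_nonneg _
    have h2 : 0 ≤ ∑ n ∈ range n0, (P n : ℝ) := sum_nonneg fun _ _ => Nat.cast_nonneg _
    have hn : (0 : ℝ) ≤ n := Nat.cast_nonneg n
    have hp : (1 : ℝ) ≤ ((n : ℝ) + 2) ^ Q.natDegree := one_le_pow₀ (by linarith)
    by_cases hlt : n < n0
    · have h4 : (P n : ℝ) ≤ ∑ n ∈ range n0, (P n : ℝ) :=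
        single_le_sum (f := fun n => (P n : ℝ)) (fun _ _ => Nat.cast_nonneg _) (mem_range.2 hlt)
      nlinarith
    · rw [hn0 n (not_lt.1 hlt), Polynomial.eval_eq_sum_range]
      have h5 : ∑ k ∈ range (Q.natDegree + 1), Q.coeff k * (n : ℝ) ^ k
          ≤ (∑ k ∈ range (Q.natDegree + 1), |Q.coeff k|) * ((n : ℝ) + 2) ^ Q.natDegree := by
        rw [sum_mul]
        apply sum_le_sum
        intro k hk
        have hk' : k ≤ Q.natDegree := Nat.lt_succ_iff.1 (mem_range.1 hk)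
        have h6 : (n : ℝ) ^ k ≤ ((n : ℝ) + 2) ^ Q.natDegree :=
          le_trans (pow_le_pow_left₀ hn (by linarith) k) (pow_le_pow_right₀ (by linarith) hk')
        calc Q.coeff k * (n : ℝ) ^ k ≤ |Q.coeff k| * (n : ℝ) ^ k :=
              mul_le_mul_of_nonneg_right (le_abs_self _) (by positivity)
          _ ≤ |Q.coeff k| * ((n : ℝ) + 2) ^ Q.natDegree :=
              mul_le_mul_of_nonneg_left h6 (abs_nonneg _)
      nlinarith

theorem main : S_GRW := by
  intro P Q h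
  obtain ⟨A, hA1, hA⟩ := growth P Q h
  have hl2 : 0 < Real.log 2 := Real.log_pos (by norm_num)
  refine ⟨Real.log (4 * A) / Real.log 2 + Q.natDegree + 1 / Real.log 2, ?_⟩
  intro t ht0 ht1 s n
  have hn : (0 : ℝ) ≤ n := Nat.cast_nonneg n
  have hlog : Real.log 2 ≤ Real.log ((n : ℝ) + 2) := Real.log_le_log (by norm_num) (by linarith)
  have h1 : ‖(if s n = true then (1 : ℂ) else 0)‖ ≤ 1 := by split_ifs <;> simp
  rw [norm_mul]
  set m := ⌊(1 + t) * (P n : ℝ)⌋₊ with hm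
  have hP : (0 : ℝ) ≤ P n := Nat.cast_nonneg _
  have hm1 : (m : ℝ) ≤ 2 * P n := by
    have h2 : (m : ℝ) ≤ (1 + t) * (P n : ℝ) := Nat.floor_le (by positivity)
    nlinarith
  have h2 : ‖th m - 1‖ ≤ Real.log (m + 2) + 1 := by
    calc ‖th m - 1‖ ≤ ‖th m‖ + ‖(1 : ℂ)‖ := norm_sub_le _ _
      _ ≤ Real.log (m + 2) + 1 := by rw [norm_one]; linarith [th_norm m]
  have hm0 : (0 : ℝ) ≤ m := Nat.cast_nonneg _
  have hpw : (1 : ℝ) ≤ ((n : ℝ) + 2) ^ Q.natDegree := one_le_pow₀ (by linarith)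
  have h3 : Real.log (m + 2) ≤ Real.log (4 * A) + Q.natDegree * Real.log ((n : ℝ) + 2) := by
    rw [← Real.log_pow, ← Real.log_mul (by positivity) (by positivity)]
    apply Real.log_le_log (by positivity)
    have := hA n
    nlinarith
  have h4A : 0 ≤ Real.log (4 * A) := Real.log_nonneg (by linarith)
  have e1 : Real.log (4 * A) ≤ Real.log (4 * A) / Real.log 2 * Real.log ((n : ℝ) + 2) := by
    rw [div_mul_eq_mul_div, le_div_iff₀ hl2]
    exact mul_le_mul_of_nonneg_left hlog h4A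
  have e2 : 1 ≤ 1 / Real.log 2 * Real.log ((n : ℝ) + 2) := by
    rw [div_mul_eq_mul_div, one_mul, le_div_iff₀ hl2, one_mul]
    exact hlog
  calc ‖(if s n = true then (1 : ℂ) else 0)‖ * ‖th m - 1‖ ≤ 1 * (Real.log (m + 2) + 1) :=
        mul_le_mul h1 h2 (norm_nonneg _) zero_le_one
    _ ≤ _ := by
      rw [add_mul, add_mul]
      linarith

end Pool.Agent.Helper27.CF.GRW
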